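import Pool.Agent.X220.LP.Basic

/-!
# Leonard triples and the equitable basis of `sl_2`

The question is whether for every Leonard triple `A, A*, A^ε` with `β = 2` there is an irreducible
`sl_2`-module structure on `V` such that `A`, `A*`, `A^ε` act as linear combinations of `I, x, y, xy`, of
`I, y, z, yz` and of `I, z, x, zx`, where `x, y, z` is the equitable basis.  The answer is no, over every
algebraically closed field of characteristic zero: the integral matrices

`A = !![7, 0, 0; -4, 0, 0; 0, -2, -1]`, `A* = !![-4, -3, 0; 0, 0, -6; 0, 0, 28]`,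
`A^ε = !![-4, 1, 0; 48, 36, 8; 0, 96, 16]`

form a Leonard triple (of `q`-Racah type with `q = 2`, of diameter two, where `β = 2` is no condition),
and there is no such structure.

Proof.  If there is a structure, the kernel of `x + y` in the three-dimensional irreducible module `V` is
spanned by a vector `p₁`, the functionals that vanish on the image of `x + y` are the multiples of some `ℓ₁`,
and similarly one has `p₂, ℓ₂` for `y + z` and `p₃, ℓ₃` for `z + x`; they satisfy
`ℓ₁(p₂) ℓ₂(p₃) ℓ₃(p₁) = ℓ₁(p₃) ℓ₂(p₁) ℓ₃(p₂)` (three points of a conic and its tangents).  `A` has the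
eigenvectors `p₁` and `ℓ₁`, and `ℓ₁(A* p₁) = 0`, therefore `p₁`, `ℓ₁` are the first and the last vector of the
eigenbasis of `A` and of its dual basis, or conversely; the same holds for `A*` and `A^ε`.  This leaves eight
possibilities, and the identity fails in all of them.
-/

set_option autoImplicit false

set_option linter.unusedSectionVars false

namespace Pool.Agent.Results.MP_44ae8d_al.NoEquitableStructure

open Pool.Agent.X220.LP

universe u

section defs

variable {K : Type u} [Field K] {V : Type u} [AddCommGroup V] [Module K V]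

/-- Leonard triples on a space of dimension `d + 1`. -/
def LeonardTriple (d : ℕ) (A B E : Module.End K V) : Prop :=
  (∃ v : Module.Basis (Fin (d + 1)) K V, (LinearMap.toMatrix v v A).IsDiag ∧
    IrredTridiagonal (LinearMap.toMatrix v v B) ∧ IrredTridiagonal (LinearMap.toMatrix v v E)) ∧
  (∃ v : Module.Basis (Fin (d + 1)) K V, (LinearMap.toMatrix v v B).IsDiag ∧
    IrredTridiagonal (LinearMap.toMatrix v v A) ∧ IrredTridiagonal (LinearMap.toMatrix v v E)) ∧
  (∃ v : Module.Basis (Fin (d + 1)) K V, (LinearMap.toMatrix v v E).IsDiag ∧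
    IrredTridiagonal (LinearMap.toMatrix v v A) ∧ IrredTridiagonal (LinearMap.toMatrix v v B))

/-- `β = 2`: `θ_{i-2} - θ_{i+1} = 3 (θ_{i-1} - θ_i)` for `2 ≤ i ≤ d - 1`, where the `θ_i` are the diagonal
entries of `A` in a basis in which `A` is diagonal and `B` is irreducible tridiagonal. -/
def BetaTwo (d : ℕ) (A B : Module.End K V) : Prop :=
  ∀ v : Module.Basis (Fin (d + 1)) K V, (LinearMap.toMatrix v v A).IsDiag →
    IrredTridiagonal (LinearMap.toMatrix v v B) →
    ∀ i j k l : Fin (d + 1), (j : ℕ) = i + 1 → (k : ℕ) = i + 2 → (l : ℕ) = i + 3 →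
      LinearMap.toMatrix v v A i i - LinearMap.toMatrix v v A l l =
        3 * (LinearMap.toMatrix v v A j j - LinearMap.toMatrix v v A k k)

/-- `X, Y, Z` are the actions of the equitable basis `x, y, z` for an irreducible `sl_2(K)`-module structure
on `V`: `[X, Y] = 2 X + 2 Y`, `[Y, Z] = 2 Y + 2 Z`, `[Z, X] = 2 Z + 2 X`, and the only subspaces invariant
under the three maps are `0` and `V`. -/
structure IsStructure (X Y Z : Module.End K V) : Prop where
  xy : X * Y - Y * X = (2 : K) • X + (2 : K) • Y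
  yz : Y * Z - Z * Y = (2 : K) • Y + (2 : K) • Z
  zx : Z * X - X * Z = (2 : K) • Z + (2 : K) • X
  irreducible : ∀ W : Submodule K V, (∀ w ∈ W, X w ∈ W) → (∀ w ∈ W, Y w ∈ W) →
    (∀ w ∈ W, Z w ∈ W) → W = ⊥ ∨ W = ⊤

end defs

/-- The question for the field `K`. -/
def Question (K : Type u) [Field K] : Prop :=
  ∀ (V : Type u) [AddCommGroup V] [Module K V] (d : ℕ) (A B E : Module.End K V),
    LeonardTriple d A B E → BetaTwo d A B →
    ∃ X Y Z : Module.End K V, IsStructure X Y Z ∧
      A ∈ Submodule.span K {1, X, Y, X * Y} ∧ B ∈ Submodule.span K {1, Y, Z, Y * Z} ∧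
      E ∈ Submodule.span K {1, Z, X, Z * X}

/-! ### The irreducible module of dimension three -/

section sl2

variable {K : Type u} [Field K] [IsAlgClosed K] [CharZero K] {V : Type u} [AddCommGroup V] [Module K V]

/-- eigenvectors for `4` different eigenvalues in a space of dimension three -/
theorem no_four (hV : Module.finrank K V = 3) [FiniteDimensional K V] (T : Module.End K V)
    (μ : Fin 4 → K) (hμ : Function.Injective μ) (x : Fin 4 → V) (hx : ∀ i, T (x i) = μ i • x i) :
    ∃ i, x i = 0 := by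
  by_contra hcon
  push Not at hcon
  have h1 : LinearIndependent K x := by
    refine Module.End.eigenvectors_linearIndependent' T μ hμ x fun i => ?_
    rw [Module.End.hasEigenvector_iff, Module.End.mem_eigenspace_iff]
    exact ⟨hx i, hcon i⟩
  have h2 := h1.fintype_card_le_finrank
  rw [hV] at h2
  simp at h2

/-- The structure of the module. -/
theorem structure_basis (hV : Module.finrank K V = 3) {X Y Z : Module.End K V}
    (h : IsStructure X Y Z) : ∃ w : Module.Basis (Fin 3) K V,
      Z (w 0) = (2 : K) • w 0 ∧ Z (w 1) = 0 ∧ Z (w 2) = (-2 : K) • w 2 ∧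
      X (w 0) = (-2 : K) • w 0 ∧ X (w 1) = (4 : K) • w 0 ∧
      X (w 2) = (4 : K) • w 1 + (2 : K) • w 2 ∧
      Y (w 0) = (-2 : K) • w 0 - (2 : K) • w 1 ∧ Y (w 1) = (-2 : K) • w 2 ∧
      Y (w 2) = (2 : K) • w 2 := by
  have hfin : FiniteDimensional K V := FiniteDimensional.of_finrank_pos (by rw [hV]; norm_num)
  have hnt : Nontrivial V := Module.nontrivial_of_finrank_pos (R := K) (by rw [hV]; norm_num)
  have h2 : (2 : K) ≠ 0 := by norm_num
  -- the relations on vectors
  have rxy : ∀ v, X (Y v) = Y (X v) + (2 : K) • X v + (2 : K) • Y v := fun v => by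
    have := congrArg (fun T : Module.End K V => T v) h.xy
    simp only [LinearMap.sub_apply, LinearMap.add_apply, LinearMap.smul_apply,
      Module.End.mul_apply] at this
    rw [sub_eq_iff_eq_add] at this
    rw [this]; abel
  have ryz : ∀ v, Y (Z v) = Z (Y v) + (2 : K) • Y v + (2 : K) • Z v := fun v => by
    have := congrArg (fun T : Module.End K V => T v) h.yz
    simp only [LinearMap.sub_apply, LinearMap.add_apply, LinearMap.smul_apply,
      Module.End.mul_apply] at this
    rw [sub_eq_iff_eq_add] at this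
    rw [this]; abel
  have rzx : ∀ v, Z (X v) = X (Z v) + (2 : K) • Z v + (2 : K) • X v := fun v => by
    have := congrArg (fun T : Module.End K V => T v) h.zx
    simp only [LinearMap.sub_apply, LinearMap.add_apply, LinearMap.smul_apply,
      Module.End.mul_apply] at this
    rw [sub_eq_iff_eq_add] at this
    rw [this]; abel
  -- the raising and lowering maps
  set e : Module.End K V := X + Z with he
  set f : Module.End K V := Y + Z with hf
  have heZ : ∀ v, Z (e v) = e (Z v) + (2 : K) • e v := by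
    intro v
    simp only [he, LinearMap.add_apply, map_add, rzx]
    module
  have hfZ : ∀ v, Z (f v) = f (Z v) - (2 : K) • f v := by
    intro v
    simp only [hf, LinearMap.add_apply, map_add, ryz]
    module
  have hef : ∀ v, e (f v) = f (e v) - (4 : K) • Z v := by
    intro v
    simp only [he, hf, LinearMap.add_apply, map_add, rxy, ryz, rzx]
    module
  have weight_e : ∀ (v : V) (μ : K), Z v = μ • v → Z (e v) = (μ + 2) • e v := by
    intro v μ hv
    rw [heZ, hv, map_smul]
    module
  have weight_f : ∀ (v : V) (μ : K), Z v = μ • v → Z (f v) = (μ - 2) • f v := by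
    intro v μ hv
    rw [hfZ, hv, map_smul]
    module
  -- a primitive vector
  obtain ⟨m, hm0, lam, hm, hem⟩ : ∃ m : V, m ≠ 0 ∧ ∃ lam : K, Z m = lam • m ∧ e m = 0 := by
    obtain ⟨μ, hμ⟩ := Module.End.exists_eigenvalue Z
    obtain ⟨v, hv⟩ := hμ.exists_hasEigenvector
    have hv0 := hv.2
    have hv1 := hv.apply_eq_smul
    have w1 := weight_e v μ hv1
    have w2 := weight_e _ _ w1
    have w3 := weight_e _ _ w2
    obtain ⟨i, hi⟩ := no_four hV Z ![μ, μ + 2, μ + 2 + 2, μ + 2 + 2 + 2]
      (by
        have h4 : (4 : K) ≠ 0 := by norm_num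
        have h6 : (6 : K) ≠ 0 := by norm_num
        intro i j hij
        fin_cases i <;> fin_cases j <;> simp at hij ⊢ <;>
        first
          | (exfalso; apply h2; linear_combination hij)
          | (exfalso; apply h2; linear_combination -hij)
          | (exfalso; apply h4; linear_combination hij)
          | (exfalso; apply h4; linear_combination -hij)
          | (exfalso; apply h6; linear_combination hij)
          | (exfalso; apply h6; linear_combination -hij))
      ![v, e v, e (e v), e (e (e v))]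
      (by intro i; fin_cases i; exacts [hv1, w1, w2, w3])
    have h3 : e (e (e v)) = 0 := by
      fin_cases i
      · exact absurd hi hv0
      · have : e v = 0 := hi
        rw [this, map_zero, map_zero]
      · have : e (e v) = 0 := hi
        rw [this, map_zero]
      · exact hi
    by_cases c1 : e v = 0
    · exact ⟨v, hv0, μ, hv1, c1⟩
    by_cases c2 : e (e v) = 0
    · exact ⟨e v, c1, _, w1, c2⟩
    · exact ⟨e (e v), c2, _, w2, h3⟩
  -- its images
  have m1 := weight_f m lam hm
  have m2 := weight_f _ _ m1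
  have m3 := weight_f _ _ m2
  have f3 : f (f (f m)) = 0 := by
    obtain ⟨i, hi⟩ := no_four hV Z ![lam, lam - 2, lam - 2 - 2, lam - 2 - 2 - 2]
      (by
        have h4 : (4 : K) ≠ 0 := by norm_num
        have h6 : (6 : K) ≠ 0 := by norm_num
        intro i j hij
        fin_cases i <;> fin_cases j <;> simp at hij ⊢ <;>
        first
          | (exfalso; apply h2; linear_combination hij)
          | (exfalso; apply h2; linear_combination -hij)
          | (exfalso; apply h4; linear_combination hij)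
          | (exfalso; apply h4; linear_combination -hij)
          | (exfalso; apply h6; linear_combination hij)
          | (exfalso; apply h6; linear_combination -hij))
      ![m, f m, f (f m), f (f (f m))]
      (by intro i; fin_cases i; exacts [hm, m1, m2, m3])
    fin_cases i
    · exact absurd hi hm0
    · have : f m = 0 := hi
      rw [this, map_zero, map_zero]
    · have : f (f m) = 0 := hi
      rw [this, map_zero]
    · exact hi
  have e1 : e (f m) = (-4 * lam) • m := by
    rw [hef, hem, map_zero, hm]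
    module
  have e2 : e (f (f m)) = (-8 * (lam - 1)) • f m := by
    rw [hef, e1, map_smul, m1]
    module
  -- the span
  set x : Fin 3 → V := ![m, f m, f (f m)] with hx
  set W : Submodule K V := Submodule.span K (Set.range x) with hW
  have x0 : m ∈ W := Submodule.subset_span ⟨0, rfl⟩
  have x1 : f m ∈ W := Submodule.subset_span ⟨1, rfl⟩
  have x2 : f (f m) ∈ W := Submodule.subset_span ⟨2, rfl⟩
  have inv : ∀ T : Module.End K V, T m ∈ W → T (f m) ∈ W → T (f (f m)) ∈ W → ∀ w ∈ W, T w ∈ W := by
    intro T t0 t1 t2 w hw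
    induction hw using Submodule.span_induction with
    | mem y hy =>
      obtain ⟨i, rfl⟩ := hy
      fin_cases i
      exacts [t0, t1, t2]
    | zero => rw [map_zero]; exact W.zero_mem
    | add y z _ _ hy hz => rw [map_add]; exact W.add_mem hy hz
    | smul r y _ hy => rw [map_smul]; exact W.smul_mem _ hy
  have invZ : ∀ w ∈ W, Z w ∈ W := inv Z (by rw [hm]; exact W.smul_mem _ x0)
    (by rw [m1]; exact W.smul_mem _ x1) (by rw [m2]; exact W.smul_mem _ x2)
  have inve : ∀ w ∈ W, e w ∈ W := inv e (by rw [hem]; exact W.zero_mem)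
    (by rw [e1]; exact W.smul_mem _ x0) (by rw [e2]; exact W.smul_mem _ x1)
  have invf : ∀ w ∈ W, f w ∈ W := inv f x1 x2 (by rw [f3]; exact W.zero_mem)
  have hWtop : W = ⊤ := by
    refine (h.irreducible W (fun w hw => ?_) (fun w hw => ?_) invZ).resolve_left ?_
    · have := W.sub_mem (inve w hw) (invZ w hw)
      rwa [he, LinearMap.add_apply, add_sub_cancel_right] at this
    · have := W.sub_mem (invf w hw) (invZ w hw)
      rwa [hf, LinearMap.add_apply, add_sub_cancel_right] at this
    · intro h0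
      rw [h0, Submodule.mem_bot] at x0
      exact hm0 x0
  have hcard : Fintype.card (Fin 3) = Module.finrank K V := by rw [hV]; rfl
  have hli : LinearIndependent K x :=
    linearIndependent_of_top_le_span_of_card_eq_finrank (by rw [← hW, hWtop]) hcard
  have hf2 : f (f m) ≠ 0 := hli.ne_zero 2
  have hlam : lam = 2 := by
    have h4 := hef (f (f m))
    rw [f3, map_zero, e2, map_smul, m2] at h4
    have h5 : (-12 * (lam - 2)) • f (f m) = 0 := by
      rw [h4]
      module
    rcases smul_eq_zero.1 h5 with h6 | h6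
    · rcases mul_eq_zero.1 h6 with h7 | h7
      · norm_num at h7
      · linear_combination h7
    · exact absurd h6 hf2
  subst hlam
  -- the basis, with `f m` and `f (f m)` rescaled by `-1/2` and `1/4`
  have hunit : LinearIndependent K (![m, (-2⁻¹ : K) • f m, (4⁻¹ : K) • f (f m)] : Fin 3 → V) := by
    have h3 := hli.units_smul ![1, Units.mk0 (-2⁻¹ : K) (by norm_num), Units.mk0 (4⁻¹ : K) (by norm_num)]
    convert h3 using 1
    funext i
    fin_cases i <;> simp [hx, Units.smul_def]
  let w : Module.Basis (Fin 3) K V := basisOfLinearIndependentOfCardEqFinrank hunit hcard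
  have w0 : w 0 = m := by
    rw [coe_basisOfLinearIndependentOfCardEqFinrank]; rfl
  have w1 : w 1 = (-2⁻¹ : K) • f m := by
    rw [coe_basisOfLinearIndependentOfCardEqFinrank]; rfl
  have w2 : w 2 = (4⁻¹ : K) • f (f m) := by
    rw [coe_basisOfLinearIndependentOfCardEqFinrank]; rfl
  have hXe : ∀ v, X v = e v - Z v := fun v => by rw [he, LinearMap.add_apply, add_sub_cancel_right]
  have hYf : ∀ v, Y v = f v - Z v := fun v => by rw [hf, LinearMap.add_apply, add_sub_cancel_right]
  refine ⟨w, ?_⟩
  rw [w0, w1, w2]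
  simp only [map_smul, hXe, hYf, hm, m1, m2, hem, e1, e2, f3]
  refine ⟨?_, ?_, ?_, ?_, ?_, ?_, ?_, ?_, ?_⟩
  · trivial
  · module
  · module
  · module
  · match_scalars <;> norm_num
  · match_scalars <;> norm_num
  · match_scalars <;> norm_num
  · match_scalars <;> norm_num
  · match_scalars <;> norm_num

end sl2

/-! ### Eigenvectors and eigenfunctionals -/

section flags

variable {K : Type u} [Field K] {V : Type u} [AddCommGroup V] [Module K V]

/-- The two extreme positions. -/
def Extreme (i j : Fin 3) : Prop := (i = 0 ∧ j = 2) ∨ (i = 2 ∧ j = 0)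

theorem flag {C D : Module.End K V} (v : Module.Basis (Fin (2 + 1)) K V)
    (hC : (LinearMap.toMatrix v v C).IsDiag)
    (hinj : Function.Injective fun i => LinearMap.toMatrix v v C i i)
    (hD : IrredTridiagonal (LinearMap.toMatrix v v D))
    {p : V} (hp : p ≠ 0) {l : V →ₗ[K] K} (hl : l ≠ 0) {γ δ : K} (h1 : C p = γ • p)
    (h2 : ∀ u, l (C u) = δ * l u) (h3 : l p = 0) (h4 : l (D p) = 0) :
    ∃ i j : Fin 3, Extreme i j ∧ ∃ c : K, c ≠ 0 ∧ p = c • v i ∧ ∃ c' : K, c' ≠ 0 ∧
      ∀ u, l u = c' * v.repr u j := by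
  -- `p` is a multiple of a basis vector
  obtain ⟨i, hi⟩ : ∃ i, v.repr p i ≠ 0 := by
    by_contra hcon
    push Not at hcon
    apply hp
    apply v.repr.injective
    ext k
    rw [hcon k, map_zero]
    rfl
  have hrep : ∀ k, v.repr (C p) k = LinearMap.toMatrix v v C k k * v.repr p k := by
    intro k
    conv_lhs => rw [← v.sum_repr p]
    rw [map_sum, map_sum, Finsupp.finsetSum_apply, Finset.sum_eq_single k]
    · rw [map_smul, diag_apply v hC, map_smul, map_smul, v.repr_self, Finsupp.smul_apply,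
        Finsupp.smul_apply, Finsupp.single_eq_same, smul_eq_mul, smul_eq_mul, mul_one, mul_comm]
    · intro m _ hm
      rw [map_smul, diag_apply v hC, map_smul, map_smul, v.repr_self, Finsupp.smul_apply,
        Finsupp.smul_apply, Finsupp.single_eq_of_ne hm.symm, smul_zero, smul_zero]
    · intro h; exact absurd (Finset.mem_univ k) h
  have hγ : ∀ k, v.repr p k ≠ 0 → LinearMap.toMatrix v v C k k = γ := by
    intro k hk
    have h5 := hrep k
    rw [h1, map_smul, Finsupp.smul_apply, smul_eq_mul] at h5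
    exact (mul_right_cancel₀ hk h5).symm
  have hpi : p = v.repr p i • v i := by
    apply v.repr.injective
    ext k
    rw [map_smul, Finsupp.smul_apply, v.repr_self, Finsupp.single_apply]
    split_ifs with h
    · rw [h, smul_eq_mul, mul_one]
    · rw [smul_zero]
      by_contra hk
      exact h (hinj ((hγ i hi).trans (hγ k hk).symm))
  -- `l` is a multiple of a coordinate
  obtain ⟨j, hj⟩ : ∃ j, l (v j) ≠ 0 := by
    by_contra hcon
    push Not at hcon
    apply hl
    apply v.ext
    intro k
    rw [hcon k, LinearMap.zero_apply]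
  have hδ : ∀ k, l (v k) ≠ 0 → LinearMap.toMatrix v v C k k = δ := by
    intro k hk
    have h5 := h2 (v k)
    rw [diag_apply v hC, map_smul, smul_eq_mul] at h5
    exact mul_right_cancel₀ hk h5
  have hlj : ∀ u, l u = l (v j) * v.repr u j := by
    intro u
    conv_lhs => rw [← v.sum_repr u]
    rw [map_sum, Finset.sum_eq_single j]
    · rw [map_smul, smul_eq_mul, mul_comm]
    · intro k _ hk
      rw [map_smul]
      have : l (v k) = 0 := by
        by_contra h
        exact hk (hinj ((hδ k h).trans (hδ j hj).symm))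
      rw [this, smul_zero]
    · intro h; exact absurd (Finset.mem_univ j) h
  refine ⟨i, j, ?_, v.repr p i, hi, hpi, l (v j), hj, hlj⟩
  have hne : i ≠ j := by
    intro h
    rw [hlj, ← h] at h3
    exact mul_ne_zero (by rw [h]; exact hj) hi h3
  have hDij : LinearMap.toMatrix v v D j i = 0 := by
    rw [hlj, hpi, map_smul, map_smul, Finsupp.smul_apply, smul_eq_mul, ← LinearMap.toMatrix_apply] at h4
    exact ((mul_eq_zero.1 ((mul_eq_zero.1 h4).resolve_left hj)).resolve_left hi)
  have hnadj : ¬ ((j : ℕ) + 1 = i ∨ (i : ℕ) + 1 = j) := fun h => hD.2 j i h hDij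
  have hall : ∀ i j : Fin 3, i ≠ j → ¬ ((j : ℕ) + 1 = i ∨ (i : ℕ) + 1 = j) →
      (i = 0 ∧ j = 2) ∨ (i = 2 ∧ j = 0) := by decide
  exact hall i j hne hnadj

theorem span_four {C T U : Module.End K V} (h : C ∈ Submodule.span K {1, T, U, T * U}) :
    ∃ a b c d : K, ∀ u, C u = a • u + b • T u + c • U u + d • T (U u) := by
  rw [Submodule.mem_span_insert] at h
  obtain ⟨a, _, h, rfl⟩ := h
  rw [Submodule.mem_span_insert] at h
  obtain ⟨b, _, h, rfl⟩ := h
  rw [Submodule.mem_span_pair] at h
  obtain ⟨c, d, rfl⟩ := h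
  exact ⟨a, b, c, d, fun u => by
    simp only [LinearMap.add_apply, LinearMap.smul_apply, Module.End.one_apply, Module.End.mul_apply]
    abel⟩

/-- What the three conditions say on the special vectors and functionals. -/
theorem special {C D T U W : Module.End K V} {p : V} {l : V →ₗ[K] K} (hT : T p = (2 : K) • p)
    (hU : U p = (-2 : K) • p) (lT : ∀ u, l (T u) = -2 * l u) (lU : ∀ u, l (U u) = 2 * l u)
    (lp : l p = 0) (lW : l (W p) = 0) (hC : C ∈ Submodule.span K {1, T, U, T * U})
    (hD : D ∈ Submodule.span K {1, U, W, U * W}) :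
    (∃ γ : K, C p = γ • p) ∧ (∃ δ : K, ∀ u, l (C u) = δ * l u) ∧ l (D p) = 0 := by
  obtain ⟨a, b, c, d, hC⟩ := span_four hC
  obtain ⟨a', b', c', d', hD⟩ := span_four hD
  refine ⟨⟨a + 2 * b - 2 * c - 4 * d, ?_⟩, ⟨a - 2 * b + 2 * c - 4 * d, fun u => ?_⟩, ?_⟩
  · rw [hC, hT, hU, map_smul, hT]
    module
  · rw [hC]
    simp only [map_add, map_smul, smul_eq_mul, lT, lU]
    ring
  · rw [hD]
    simp only [map_add, map_smul, smul_eq_mul, lU, lp, lW]
    ring

end flags

/-! ### The triple -/

/-- the matrix of `A` -/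
def MA : Matrix (Fin 3) (Fin 3) ℚ := !![7, 0, 0; -4, 0, 0; 0, -2, -1]
/-- the matrix of `A*` -/
def MB : Matrix (Fin 3) (Fin 3) ℚ := !![-4, -3, 0; 0, 0, -6; 0, 0, 28]
/-- the matrix of `A^ε` -/
def ME : Matrix (Fin 3) (Fin 3) ℚ := !![-4, 1, 0; 48, 36, 8; 0, 96, 16]
/-- eigenvectors of `A` -/
def PA : Matrix (Fin 3) (Fin 3) ℚ := !![0, 0, 7; 0, -1, -4; 1, 2, 1]
/-- the inverse of `PA` -/
def QA : Matrix (Fin 3) (Fin 3) ℚ := !![1, 2, 1; -4 / 7, -1, 0; 1 / 7, 0, 0]
/-- eigenvectors of `A*` -/
def PB : Matrix (Fin 3) (Fin 3) ℚ := !![1, -3, 9; 0, 4, -96; 0, 0, 448]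
/-- the inverse of `PB` -/
def QB : Matrix (Fin 3) (Fin 3) ℚ := !![1, 3 / 4, 9 / 64; 0, 1 / 4, 3 / 56; 0, 0, 1 / 448]
/-- eigenvectors of `A^ε` -/
def PE : Matrix (Fin 3) (Fin 3) ℚ := !![1, -1, 1; -4, -4, 60; 16, 24, 144]
/-- the inverse of `PE` -/
def QE : Matrix (Fin 3) (Fin 3) ℚ :=
  !![9 / 16, -3 / 64, 1 / 64; -3 / 7, -1 / 28, 1 / 56; 1 / 112, 5 / 448, 1 / 448]

theorem PA_QA : PA * QA = 1 := by decide +kernel
theorem QA_PA : QA * PA = 1 := by decide +kernel
theorem PB_QB : PB * QB = 1 := by decide +kernel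
theorem QB_PB : QB * PB = 1 := by decide +kernel
theorem PE_QE : PE * QE = 1 := by decide +kernel
theorem QE_PE : QE * PE = 1 := by decide +kernel

instance : DecidablePred (IrredTridiagonal : Matrix (Fin 3) (Fin 3) ℚ → Prop) := fun M => by
  unfold IrredTridiagonal
  infer_instance

theorem QA_MB : IrredTridiagonal (QA * MB * PA) := by decide +kernel
theorem QA_ME : IrredTridiagonal (QA * ME * PA) := by decide +kernel
theorem QB_MA : IrredTridiagonal (QB * MA * PB) := by decide +kernel
theorem QB_ME : IrredTridiagonal (QB * ME * PB) := by decide +kernel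
theorem QE_MA : IrredTridiagonal (QE * MA * PE) := by decide +kernel
theorem QE_MB : IrredTridiagonal (QE * MB * PE) := by decide +kernel

theorem QA_MA : QA * MA * PA = Matrix.diagonal ![-1, 0, 7] := by decide +kernel
theorem QB_MB : QB * MB * PB = Matrix.diagonal ![-4, 0, 28] := by decide +kernel
theorem QE_ME : QE * ME * PE = Matrix.diagonal ![-8, 0, 56] := by decide +kernel

instance (i j : Fin 3) : Decidable (Extreme i j) := by
  unfold Extreme
  infer_instance

/-- The identity fails in all of the eight cases. -/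
theorem cases_fail : ∀ i₁ j₁ i₂ j₂ i₃ j₃ : Fin 3, Extreme i₁ j₁ → Extreme i₂ j₂ → Extreme i₃ j₃ →
    (QA * PB) j₁ i₂ * (QB * PE) j₂ i₃ * (QE * PA) j₃ i₁ ≠
      (QA * PE) j₁ i₃ * (QB * PA) j₂ i₁ * (QE * PB) j₃ i₂ := by decide +kernel

section transfer

variable (K : Type u) [Field K] [CharZero K]

/-- rational matrices as matrices over `K` -/
def toK (M : Matrix (Fin 3) (Fin 3) ℚ) : Matrix (Fin 3) (Fin 3) K := M.map (algebraMap ℚ K)

theorem toK_mul (M N : Matrix (Fin 3) (Fin 3) ℚ) : toK K (M * N) = toK K M * toK K N :=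
  Matrix.map_mul

theorem toK_one : toK K 1 = 1 := Matrix.map_one _ (map_zero _) (map_one _)

theorem toK_irred {M : Matrix (Fin 3) (Fin 3) ℚ} (h : IrredTridiagonal M) :
    IrredTridiagonal (toK K M) := by
  refine ⟨fun i j hij => ?_, fun i j hij h0 => h.2 i j hij ?_⟩
  · rw [toK, Matrix.map_apply, h.1 i j hij, map_zero]
  · rw [toK, Matrix.map_apply] at h0
    exact (map_eq_zero _).1 h0

/-- the basis of the columns -/
noncomputable def cb (P Q : Matrix (Fin 3) (Fin 3) ℚ) (h1 : P * Q = 1) (h2 : Q * P = 1) :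
    Module.Basis (Fin (2 + 1)) K (Fin 3 → K) :=
  colBasis (toK K P) (toK K Q) (by rw [← toK_mul, h1, toK_one]) (by rw [← toK_mul, h2, toK_one])

theorem cb_toMatrix (P Q : Matrix (Fin 3) (Fin 3) ℚ) (h1 : P * Q = 1) (h2 : Q * P = 1)
    (M : Matrix (Fin 3) (Fin 3) ℚ) :
    LinearMap.toMatrix (cb K P Q h1 h2) (cb K P Q h1 h2) (Matrix.toLin' (toK K M)) =
      toK K (Q * M * P) := by
  unfold cb
  rw [toMatrix_colBasis, toK_mul, toK_mul]

theorem cb_repr (P Q P' Q' : Matrix (Fin 3) (Fin 3) ℚ) (h1 : P * Q = 1) (h2 : Q * P = 1)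
    (h1' : P' * Q' = 1) (h2' : Q' * P' = 1) (i j : Fin 3) :
    (cb K P Q h1 h2).repr (cb K P' Q' h1' h2' j) i = algebraMap ℚ K ((Q * P') i j) := by
  have hj : cb K P' Q' h1' h2' j = (toK K P').mulVec (Pi.single j 1) := by
    unfold cb colBasis
    rw [Module.Basis.coe_ofEquivFun]
    rfl
  have hr : ∀ x, (cb K P Q h1 h2).repr x i = (toK K Q).mulVec x i := fun x => by
    unfold cb colBasis
    rw [Module.Basis.ofEquivFun_repr_apply]
    rfl
  rw [hr, hj, Matrix.mulVec_mulVec, Matrix.mulVec_single_one, ← toK_mul]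
  rfl

theorem toK_diagonal (x : Fin 3 → ℚ) : (toK K (Matrix.diagonal x)).IsDiag := by
  intro i j hij
  rw [toK, Matrix.map_apply, Matrix.diagonal_apply_ne _ hij, map_zero]

theorem toK_injective {x : Fin 3 → ℚ} (hx : Function.Injective x) :
    Function.Injective fun i => toK K (Matrix.diagonal x) i i := by
  intro i j hij
  simp only [toK, Matrix.map_apply, Matrix.diagonal_apply_eq] at hij
  exact hx ((algebraMap ℚ K).injective hij)

/-- `A`, `A*`, `A^ε` is a Leonard triple. -/
theorem triple : LeonardTriple 2 (Matrix.toLin' (toK K MA)) (Matrix.toLin' (toK K MB))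
    (Matrix.toLin' (toK K ME)) := by
  refine ⟨⟨cb K PA QA PA_QA QA_PA, ?_, ?_, ?_⟩, ⟨cb K PB QB PB_QB QB_PB, ?_, ?_, ?_⟩,
    ⟨cb K PE QE PE_QE QE_PE, ?_, ?_, ?_⟩⟩
  · rw [cb_toMatrix, QA_MA]; exact toK_diagonal K _
  · rw [cb_toMatrix]; exact toK_irred K QA_MB
  · rw [cb_toMatrix]; exact toK_irred K QA_ME
  · rw [cb_toMatrix, QB_MB]; exact toK_diagonal K _
  · rw [cb_toMatrix]; exact toK_irred K QB_MA
  · rw [cb_toMatrix]; exact toK_irred K QB_ME
  · rw [cb_toMatrix, QE_ME]; exact toK_diagonal K _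
  · rw [cb_toMatrix]; exact toK_irred K QE_MA
  · rw [cb_toMatrix]; exact toK_irred K QE_MB

end transfer

theorem result (K : Type u) [Field K] [IsAlgClosed K] [CharZero K] : ¬ Question K := by
  intro hQ
  obtain ⟨X, Y, Z, hS, hA, hB, hE⟩ := hQ (Fin 3 → K) 2 _ _ _ (triple K)
    (fun v _ _ i j k l _ _ hl => by omega)
  obtain ⟨w, z0, z1, z2, x0, x1, x2, y0, y1, y2⟩ := structure_basis (by simp) hS
  -- the three vectors and the three functionals
  set p₁ : Fin 3 → K := (2 : K) • w 0 + (2 : K) • w 1 + w 2 with hp₁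
  set l₁ : (Fin 3 → K) →ₗ[K] K := w.coord 0 - (2 : K) • w.coord 1 + (2 : K) • w.coord 2 with hl₁
  have c : ∀ i j, w.coord i (w j) = if j = i then 1 else 0 := fun i j => by
    rw [Module.Basis.coord_apply, w.repr_self, Finsupp.single_apply]
  have l₁v : ∀ j, l₁ (w j) = ![1, -2, 2] j := by
    intro j
    rw [hl₁]
    simp only [LinearMap.add_apply, LinearMap.sub_apply, LinearMap.smul_apply, c]
    fin_cases j <;> simp
  have hfun : ∀ (l : (Fin 3 → K) →ₗ[K] K) (T : Module.End K (Fin 3 → K)) (γ : K),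
      (∀ j, l (T (w j)) = γ * l (w j)) → ∀ u, l (T u) = γ * l u := by
    intro l T γ h u
    have : l ∘ₗ T = γ • l := by
      apply w.ext
      intro j
      rw [LinearMap.comp_apply, LinearMap.smul_apply, smul_eq_mul, h]
    exact congrArg (fun f : (Fin 3 → K) →ₗ[K] K => f u) this
  have s₁ := special (C := Matrix.toLin' (toK K MA)) (D := Matrix.toLin' (toK K MB)) (T := X)
    (U := Y) (W := Z) (p := p₁) (l := l₁)
    (by rw [hp₁, map_add, map_add, map_smul, map_smul, x0, x1, x2]; module)
    (by rw [hp₁, map_add, map_add, map_smul, map_smul, y0, y1, y2]; module)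
    (hfun _ _ _ fun j => by
      fin_cases j
      · show l₁ (X (w 0)) = -2 * l₁ (w 0)
        rw [x0, map_smul, smul_eq_mul]
      · show l₁ (X (w 1)) = -2 * l₁ (w 1)
        rw [x1, map_smul, smul_eq_mul, l₁v, l₁v]
        simp
        norm_num
      · show l₁ (X (w 2)) = -2 * l₁ (w 2)
        rw [x2, map_add, map_smul, map_smul, smul_eq_mul, smul_eq_mul, l₁v, l₁v]
        simp
        norm_num)
    (hfun _ _ _ fun j => by
      fin_cases j
      · show l₁ (Y (w 0)) = 2 * l₁ (w 0)
        rw [y0, map_sub, map_smul, map_smul, smul_eq_mul, smul_eq_mul, l₁v, l₁v]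
        simp
        norm_num
      · show l₁ (Y (w 1)) = 2 * l₁ (w 1)
        rw [y1, map_smul, smul_eq_mul, l₁v, l₁v]
        simp
      · show l₁ (Y (w 2)) = 2 * l₁ (w 2)
        rw [y2, map_smul, smul_eq_mul])
    (by
      rw [hp₁, map_add, map_add, map_smul, map_smul, l₁v, l₁v, l₁v]
      simp
      norm_num)
    (by
      rw [hp₁]
      simp only [map_add, map_smul, z0, z1, z2, smul_zero, smul_eq_mul, l₁v, map_zero]
      simp)
    hA hB
  have s₂ := special (C := Matrix.toLin' (toK K MB)) (D := Matrix.toLin' (toK K ME)) (T := Y)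
    (U := Z) (W := X) (p := w 2) (l := w.coord 0) y2 z2
    (hfun _ _ _ fun j => by
      fin_cases j
      · show w.coord 0 (Y (w 0)) = -2 * w.coord 0 (w 0)
        rw [y0]; simp only [map_sub, map_smul, c]; simp
      · show w.coord 0 (Y (w 1)) = -2 * w.coord 0 (w 1)
        rw [y1]; simp only [map_smul, c]; simp
      · show w.coord 0 (Y (w 2)) = -2 * w.coord 0 (w 2)
        rw [y2]; simp only [map_smul, c]; simp)
    (hfun _ _ _ fun j => by
      fin_cases j
      · show w.coord 0 (Z (w 0)) = 2 * w.coord 0 (w 0)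
        rw [z0]; simp only [map_smul, c]; simp
      · show w.coord 0 (Z (w 1)) = 2 * w.coord 0 (w 1)
        rw [z1, map_zero, c]; simp
      · show w.coord 0 (Z (w 2)) = 2 * w.coord 0 (w 2)
        rw [z2]; simp only [map_smul, c]; simp)
    (by rw [c]; simp)
    (by rw [x2]; simp only [map_add, map_smul, c]; simp)
    hB hE
  have s₃ := special (C := Matrix.toLin' (toK K ME)) (D := Matrix.toLin' (toK K MA)) (T := Z)
    (U := X) (W := Y) (p := w 0) (l := w.coord 2) z0 x0
    (hfun _ _ _ fun j => by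
      fin_cases j
      · show w.coord 2 (Z (w 0)) = -2 * w.coord 2 (w 0)
        rw [z0]; simp only [map_smul, c]; simp
      · show w.coord 2 (Z (w 1)) = -2 * w.coord 2 (w 1)
        rw [z1, map_zero, c]; simp
      · show w.coord 2 (Z (w 2)) = -2 * w.coord 2 (w 2)
        rw [z2]; simp only [map_smul, c]; simp)
    (hfun _ _ _ fun j => by
      fin_cases j
      · show w.coord 2 (X (w 0)) = 2 * w.coord 2 (w 0)
        rw [x0]; simp only [map_smul, c]; simp
      · show w.coord 2 (X (w 1)) = 2 * w.coord 2 (w 1)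
        rw [x1]; simp only [map_smul, c]; simp
      · show w.coord 2 (X (w 2)) = 2 * w.coord 2 (w 2)
        rw [x2]; simp only [map_add, map_smul, c]; simp)
    (by rw [c]; simp)
    (by rw [y0]; simp only [map_sub, map_smul, c]; simp)
    hE hA
  -- the identity
  have hid : l₁ (w 2) * w.coord 0 (w 0) * w.coord 2 p₁ =
      l₁ (w 0) * w.coord 0 p₁ * w.coord 2 (w 2) := by
    rw [l₁v, l₁v, hp₁]
    simp only [map_add, map_smul, c]
    simp
  -- the positions
  obtain ⟨⟨γ₁, a₁⟩, ⟨δ₁, b₁⟩, e₁⟩ := s₁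
  obtain ⟨⟨γ₂, a₂⟩, ⟨δ₂, b₂⟩, e₂⟩ := s₂
  obtain ⟨⟨γ₃, a₃⟩, ⟨δ₃, b₃⟩, e₃⟩ := s₃
  have hp₁0 : p₁ ≠ 0 := by
    intro h
    have : w.coord 2 p₁ = 0 := by rw [h, map_zero]
    rw [hp₁] at this
    simp only [map_add, map_smul, c] at this
    simp at this
  have hl₁0 : l₁ ≠ 0 := by
    intro h
    have := l₁v 0
    rw [h] at this
    simp at this
  have hco : ∀ i, w.coord i ≠ 0 := by
    intro i h
    have := c i i
    rw [h] at this
    simp at this
  obtain ⟨i₁, j₁, h₁, c₁, c₁0, q₁, d₁, d₁0, r₁⟩ := flag (cb K PA QA PA_QA QA_PA)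
    (D := Matrix.toLin' (toK K MB))
    (by rw [cb_toMatrix, QA_MA]; exact toK_diagonal K _)
    (by rw [cb_toMatrix, QA_MA]; exact toK_injective K (by decide +kernel))
    (by rw [cb_toMatrix]; exact toK_irred K QA_MB) hp₁0 hl₁0 a₁ b₁
    (by
      rw [hp₁, map_add, map_add, map_smul, map_smul, l₁v, l₁v, l₁v]
      simp
      norm_num) e₁
  obtain ⟨i₂, j₂, h₂, c₂, c₂0, q₂, d₂, d₂0, r₂⟩ := flag (cb K PB QB PB_QB QB_PB)
    (D := Matrix.toLin' (toK K ME))
    (by rw [cb_toMatrix, QB_MB]; exact toK_diagonal K _)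
    (by rw [cb_toMatrix, QB_MB]; exact toK_injective K (by decide +kernel))
    (by rw [cb_toMatrix]; exact toK_irred K QB_ME) (w.ne_zero 2) (hco 0) a₂ b₂
    (by rw [c]; simp) e₂
  obtain ⟨i₃, j₃, h₃, c₃, c₃0, q₃, d₃, d₃0, r₃⟩ := flag (cb K PE QE PE_QE QE_PE)
    (D := Matrix.toLin' (toK K MA))
    (by rw [cb_toMatrix, QE_ME]; exact toK_diagonal K _)
    (by rw [cb_toMatrix, QE_ME]; exact toK_injective K (by decide +kernel))
    (by rw [cb_toMatrix]; exact toK_irred K QE_MA) (w.ne_zero 0) (hco 2) a₃ b₃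
    (by rw [c]; simp) e₃
  rw [r₁, r₂, r₃, r₁, r₂, r₃, q₁, q₂, q₃] at hid
  simp only [map_smul, Finsupp.smul_apply, smul_eq_mul, cb_repr] at hid
  apply cases_fail i₁ j₁ i₂ j₂ i₃ j₃ h₁ h₂ h₃
  apply (algebraMap ℚ K).injective
  simp only [map_mul]
  have hne : d₁ * d₂ * d₃ * c₁ * c₂ * c₃ ≠ 0 := by
    refine mul_ne_zero (mul_ne_zero (mul_ne_zero (mul_ne_zero (mul_ne_zero ?_ ?_) ?_) ?_) ?_) ?_ <;>
      assumption
  apply mul_left_cancel₀ hne
  linear_combination hid

end Pool.Agent.Results.MP_44ae8d_al.NoEquitableStructure
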